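import Mathlib

/-!
# The computable Friedman–Stanley jump

Basic facts about the computable FS-jump of an equivalence relation on `ℕ`, and the uniform sum of
the finite iterates.  Main results:

* `Neg.jump`: if the complement of `E` is many-one reducible to `F`, then the complement of the
  jump of `E` is many-one reducible to the third jump of `F`;
* `not_neg_self`: the complement of a jump is never many-one reducible to the jump.
-/

set_option autoImplicit false

namespace Pool.Agent.K9h72.FSJ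

open Nat.Partrec (Code)

/-- The partial computable function with index `e`. -/
def phi (e : ℕ) : ℕ →. ℕ := (Denumerable.ofNat Code e).eval

theorem phi_encode (c : Code) : phi (Encodable.encode c) = c.eval := by
  simp [phi]

theorem phi_part : Partrec₂ phi :=
  Code.eval_part.comp ((Computable.ofNat Code).comp Computable.fst) Computable.snd

theorem smn {α : Type} [Primcodable α] {f : α → ℕ →. ℕ} (hf : Partrec₂ f) :
    ∃ g : α → ℕ, Computable g ∧ ∀ a n, phi (g a) n = f a n := by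
  obtain ⟨c, hc⟩ := Code.exists_code.1 hf
  refine ⟨fun a => Encodable.encode (Code.curry c (Encodable.encode a)), ?_, ?_⟩
  · exact (Primrec.encode.comp
      (Code.primrec₂_curry.comp (Primrec.const c) Primrec.encode)).to_comp
  · intro a n
    rw [phi_encode, Code.eval_curry, hc]
    have h : (Encodable.decode (Nat.pair (Encodable.encode a) n) : Option (α × ℕ)) = some (a, n) := by
      simp
    simp only [h]
    have h2 : (Encodable.encode : ℕ → ℕ) = id := rfl
    simp [h2, Part.map_id']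

/-- The computable FS-jump. -/
def jump (E : ℕ → ℕ → Prop) (x y : ℕ) : Prop :=
  (∀ n, ∀ u ∈ phi x n, ∃ m, ∃ v ∈ phi y m, E u v) ∧
    (∀ m, ∀ v ∈ phi y m, ∃ n, ∃ u ∈ phi x n, E u v)

theorem jump_equiv {E : ℕ → ℕ → Prop} (hE : Equivalence E) : Equivalence (jump E) := by
  refine ⟨?_, ?_, ?_⟩
  · intro x
    exact ⟨fun n u hu => ⟨n, u, hu, hE.refl _⟩, fun n u hu => ⟨n, u, hu, hE.refl _⟩⟩
  · rintro x y ⟨h1, h2⟩
    refine ⟨fun n u hu => ?_, fun n u hu => ?_⟩
    · obtain ⟨m, v, hv, h⟩ := h2 n u hu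
      exact ⟨m, v, hv, hE.symm h⟩
    · obtain ⟨m, v, hv, h⟩ := h1 n u hu
      exact ⟨m, v, hv, hE.symm h⟩
  · rintro x y z ⟨h1, h2⟩ ⟨h3, h4⟩
    refine ⟨fun n u hu => ?_, fun n u hu => ?_⟩
    · obtain ⟨m, v, hv, h⟩ := h1 n u hu
      obtain ⟨k, w, hw, h'⟩ := h3 m v hv
      exact ⟨k, w, hw, hE.trans h h'⟩
    · obtain ⟨m, v, hv, h⟩ := h4 n u hu
      obtain ⟨k, w, hw, h'⟩ := h2 m v hv
      exact ⟨k, w, hw, hE.trans h' h⟩

/-- Computable reducibility. -/
def Red (E F : ℕ → ℕ → Prop) : Prop :=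
  ∃ f : ℕ → ℕ, Computable f ∧ ∀ x y, E x y ↔ F (f x) (f y)

theorem Red.refl (E : ℕ → ℕ → Prop) : Red E E := ⟨id, Computable.id, fun _ _ => Iff.rfl⟩

theorem Red.trans {E F G : ℕ → ℕ → Prop} (h1 : Red E F) (h2 : Red F G) : Red E G := by
  obtain ⟨f, hf, h1⟩ := h1
  obtain ⟨g, hg, h2⟩ := h2
  exact ⟨fun x => g (f x), hg.comp hf, fun x y => (h1 x y).trans (h2 _ _)⟩

/-- The code `c` computes a reduction of `E` to `F`. -/
def CRed (c : Code) (E F : ℕ → ℕ → Prop) : Prop :=
  ∃ f : ℕ → ℕ, (∀ x, f x ∈ c.eval x) ∧ ∀ x y, E x y ↔ F (f x) (f y)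

theorem computable_of_mem {f : ℕ → ℕ} {c : Code} (h : ∀ x, f x ∈ c.eval x) : Computable f := by
  have h1 : (f : ℕ →. ℕ) = c.eval := by
    funext x
    exact (Part.eq_some_iff.2 (h x)).symm
  have h2 : Partrec (f : ℕ →. ℕ) := by
    rw [h1]
    exact Code.eval_part.comp (Computable.const c) Computable.id
  exact h2

theorem CRed.red {c : Code} {E F : ℕ → ℕ → Prop} (h : CRed c E F) : Red E F := by
  obtain ⟨f, h1, h2⟩ := h
  exact ⟨f, computable_of_mem h1, h2⟩

theorem Red.exists_code {E F : ℕ → ℕ → Prop} (h : Red E F) : ∃ c, CRed c E F := by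
  obtain ⟨f, h1, h2⟩ := h
  obtain ⟨c, hc⟩ := Code.exists_code.1 (Partrec.nat_iff.1 h1)
  refine ⟨c, f, fun x => ?_, h2⟩
  rw [hc]
  simp

/-- A computable family of total functions is given by a computable family of codes. -/
theorem exists_codes {α : Type} [Primcodable α] {g : α → ℕ → ℕ} (hg : Computable₂ g) :
    ∃ T : α → Code, Computable T ∧ ∀ a x, g a x ∈ (T a).eval x := by
  obtain ⟨t, ht, h⟩ := smn (f := fun a x => Part.some (g a x)) hg
  refine ⟨fun a => Denumerable.ofNat Code (t a), (Computable.ofNat Code).comp ht, fun a x => ?_⟩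
  have := h a x
  rw [phi] at this
  rw [this]
  simp

theorem stepRed : ∃ T : Code → Code, Computable T ∧
    ∀ c E F, CRed c E F → CRed (T c) (jump E) (jump F) := by
  obtain ⟨g, hg, h⟩ := smn (α := Code × ℕ) (f := fun p k => (phi p.2 k).bind p.1.eval) (by
    have h1 : Partrec fun q : (Code × ℕ) × ℕ => phi q.1.2 q.2 :=
      phi_part.comp (Computable.snd.comp Computable.fst) Computable.snd
    have h2 : Partrec₂ fun (q : (Code × ℕ) × ℕ) (u : ℕ) => q.1.1.eval u :=
      Code.eval_part.comp (Computable.fst.comp (Computable.fst.comp Computable.fst)) Computable.snd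
    exact h1.bind h2)
  obtain ⟨T, hT, h'⟩ := exists_codes (g := fun c x => g (c, x)) hg
  refine ⟨T, hT, ?_⟩
  rintro c E F ⟨f, hf, hEF⟩
  refine ⟨fun x => g (c, x), h' c, ?_⟩
  have key : ∀ x n w, w ∈ phi (g (c, x)) n ↔ ∃ u ∈ phi x n, w = f u := by
    intro x n w
    rw [h]
    refine Part.mem_bind_iff.trans ?_
    constructor
    · rintro ⟨u, hu, hw⟩
      exact ⟨u, hu, Part.mem_unique hw (hf u)⟩
    · rintro ⟨u, hu, rfl⟩
      exact ⟨u, hu, hf u⟩
  intro x y
  constructor
  · rintro ⟨h1, h2⟩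
    refine ⟨fun n w hw => ?_, fun n w hw => ?_⟩
    · obtain ⟨u, hu, rfl⟩ := (key _ _ _).1 hw
      obtain ⟨m, v, hv, hE⟩ := h1 n u hu
      exact ⟨m, f v, (key _ _ _).2 ⟨v, hv, rfl⟩, (hEF _ _).1 hE⟩
    · obtain ⟨u, hu, rfl⟩ := (key _ _ _).1 hw
      obtain ⟨m, v, hv, hE⟩ := h2 n u hu
      exact ⟨m, f v, (key _ _ _).2 ⟨v, hv, rfl⟩, (hEF _ _).1 hE⟩
  · rintro ⟨h1, h2⟩
    refine ⟨fun n u hu => ?_, fun n u hu => ?_⟩
    · obtain ⟨m, w, hw, hF⟩ := h1 n (f u) ((key _ _ _).2 ⟨u, hu, rfl⟩)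
      obtain ⟨v, hv, rfl⟩ := (key _ _ _).1 hw
      exact ⟨m, v, hv, (hEF _ _).2 hF⟩
    · obtain ⟨m, w, hw, hF⟩ := h2 n (f u) ((key _ _ _).2 ⟨u, hu, rfl⟩)
      obtain ⟨v, hv, rfl⟩ := (key _ _ _).1 hw
      exact ⟨m, v, hv, (hEF _ _).2 hF⟩

theorem Red.jmp {E F : ℕ → ℕ → Prop} (h : Red E F) : Red (jump E) (jump F) := by
  obtain ⟨c, hc⟩ := h.exists_code
  obtain ⟨T, _, hT⟩ := stepRed
  exact (hT c E F hc).red

/-- The disjoint sum of a sequence of relations. -/
def dsum (R : ℕ → ℕ → ℕ → Prop) (x y : ℕ) : Prop :=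
  x.unpair.1 = y.unpair.1 ∧ R x.unpair.1 x.unpair.2 y.unpair.2

theorem dsum_equiv {R : ℕ → ℕ → ℕ → Prop} (hR : ∀ n, Equivalence (R n)) :
    Equivalence (dsum R) := by
  refine ⟨fun x => ⟨rfl, (hR _).refl _⟩, ?_, ?_⟩
  · rintro x y ⟨h1, h2⟩
    refine ⟨h1.symm, ?_⟩
    rw [← h1]
    exact (hR _).symm h2
  · rintro x y z ⟨h1, h2⟩ ⟨h3, h4⟩
    refine ⟨h1.trans h3, (hR _).trans h2 ?_⟩
    rw [h1]
    exact h4

theorem red_dsum (R : ℕ → ℕ → ℕ → Prop) (n : ℕ) : Red (R n) (dsum R) := by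
  refine ⟨fun x => Nat.pair n x, ?_, fun x y => ?_⟩
  · exact (Primrec₂.natPair.comp (Primrec.const n) Primrec.id).to_comp
  · simp [dsum]

/-- The sum of the finite iterates of the jump. -/
def omegaJump (E : ℕ → ℕ → Prop) : ℕ → ℕ → Prop := dsum fun n => jump^[n] E

theorem iter_equiv {E : ℕ → ℕ → Prop} (hE : Equivalence E) (n : ℕ) :
    Equivalence (jump^[n] E) := by
  induction n with
  | zero => exact hE
  | succ n ih =>
    rw [Function.iterate_succ_apply']
    exact jump_equiv ih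

theorem omegaJump_equiv {E : ℕ → ℕ → Prop} (hE : Equivalence E) : Equivalence (omegaJump E) :=
  dsum_equiv (iter_equiv hE)

theorem Red.iter {E F : ℕ → ℕ → Prop} (h : Red E F) (n : ℕ) : Red (jump^[n] E) (jump^[n] F) := by
  induction n with
  | zero => exact h
  | succ n ih =>
    rw [Function.iterate_succ_apply', Function.iterate_succ_apply']
    exact ih.jmp

theorem red_omegaJump (E : ℕ → ℕ → Prop) (n : ℕ) : Red (jump^[n] E) (omegaJump E) :=
  red_dsum (fun n => jump^[n] E) n

theorem Red.om {E F : ℕ → ℕ → Prop} (h : Red E F) : Red (omegaJump E) (omegaJump F) := by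
  obtain ⟨c, hc⟩ := h.exists_code
  obtain ⟨T, hT, hT'⟩ := stepRed
  have hcn : ∀ n, CRed (T^[n] c) (jump^[n] E) (jump^[n] F) := by
    intro n
    induction n with
    | zero => exact hc
    | succ n ih =>
      rw [Function.iterate_succ_apply', Function.iterate_succ_apply',
        Function.iterate_succ_apply']
      exact hT' _ _ _ ih
  choose f hf hf' using hcn
  have hcomp : Computable fun n => T^[n] c := by
    have h1 : Computable fun n : ℕ => (Nat.rec c (fun _ d => T d) n : Code) :=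
      Computable.nat_rec Computable.id (Computable.const c)
        (hT.comp (Computable.snd.comp Computable.snd)).to₂
    refine h1.of_eq fun n => ?_
    induction n with
    | zero => rfl
    | succ n ih =>
      rw [Function.iterate_succ_apply', ← ih]
  have hF : Computable fun x : ℕ => f x.unpair.1 x.unpair.2 := by
    have h2 : Partrec fun x : ℕ => (T^[x.unpair.1] c).eval x.unpair.2 :=
      Code.eval_part.comp (hcomp.comp (Computable.fst.comp Computable.unpair))
        (Computable.snd.comp Computable.unpair)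
    refine h2.of_eq fun x => ?_
    exact Part.eq_some_iff.2 (hf _ _)
  refine ⟨fun x => Nat.pair x.unpair.1 (f x.unpair.1 x.unpair.2), ?_, fun x y => ?_⟩
  · exact (Primrec₂.natPair.to_comp).comp (Computable.fst.comp Computable.unpair) hF
  · simp only [omegaJump, dsum, Nat.unpair_pair]
    constructor
    · rintro ⟨h1, h2⟩
      refine ⟨h1, ?_⟩
      rw [← h1]
      exact (hf' _ _ _).1 h2
    · rintro ⟨h1, h2⟩
      refine ⟨h1, ?_⟩
      rw [← h1] at h2
      exact (hf' _ _ _).2 h2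

theorem Red.omIter {E F : ℕ → ℕ → Prop} (h : Red E F) (n : ℕ) :
    Red (omegaJump^[n] E) (omegaJump^[n] F) := by
  induction n with
  | zero => exact h
  | succ n ih =>
    rw [Function.iterate_succ_apply', Function.iterate_succ_apply']
    exact ih.om

end Pool.Agent.K9h72.FSJ
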