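import Pool.Agent.K9h72.FSJ.Neg

/-!
# Kleene's notations and the transfinite iterates of the FS-jump
-/

set_option autoImplicit false

namespace Pool.Agent.K9h72.FSJ

open Nat.Partrec (Code)

mutual
/-- Kleene's set `𝒪` of notations. -/
inductive InO : ℕ → Prop
  | one : InO 1
  | succ {a : ℕ} : InO a → InO (2 ^ a)
  | lim {e : ℕ} {f : ℕ → ℕ} : (∀ n, f n ∈ phi e n) → (∀ n, InO (f n)) →
      (∀ n, LtO (f n) (f (n + 1))) → InO (3 * 5 ^ e)

/-- The order `<_𝒪` of Kleene's set of notations. -/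
inductive LtO : ℕ → ℕ → Prop
  | succ {a : ℕ} : InO a → LtO a (2 ^ a)
  | lim {e : ℕ} {f : ℕ → ℕ} (n : ℕ) : (∀ n, f n ∈ phi e n) → (∀ n, InO (f n)) →
      (∀ n, LtO (f n) (f (n + 1))) → LtO (f n) (3 * 5 ^ e)
  | trans {a b c : ℕ} : LtO a b → LtO b c → LtO a c
end

/-- `Denotes a α`: the number `a` is a notation of the ordinal `α`. -/
inductive Denotes : ℕ → Ordinal.{0} → Prop
  | one : Denotes 1 0
  | succ {a : ℕ} {α : Ordinal.{0}} : Denotes a α → Denotes (2 ^ a) (α + 1)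
  | lim {e : ℕ} {f : ℕ → ℕ} {α : ℕ → Ordinal.{0}} : (∀ n, f n ∈ phi e n) →
      (∀ n, LtO (f n) (f (n + 1))) → (∀ n, Denotes (f n) (α n)) → Denotes (3 * 5 ^ e) (⨆ n, α n)

/-- The classes of the equivalence relation `E` which are enumerated by the function with index
`e`. -/
def classes (E : ℕ → ℕ → Prop) (e : ℕ) : Set (Set ℕ) :=
  {C | ∃ n, ∃ u ∈ phi e n, C = {w | E u w}}

/-- The computable FS-jump. -/
def fsJump (E : ℕ → ℕ → Prop) (x y : ℕ) : Prop := classes E x = classes E y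

/-- `IsIter E a R`: the relation `R` is the iterate of the FS-jump of `E` along the notation
`a`. -/
inductive IsIter (E : ℕ → ℕ → Prop) : ℕ → (ℕ → ℕ → Prop) → Prop
  | one : IsIter E 1 E
  | succ {a : ℕ} {R : ℕ → ℕ → Prop} : IsIter E a R → IsIter E (2 ^ a) (fsJump R)
  | lim {e : ℕ} {f : ℕ → ℕ} {R : ℕ → ℕ → ℕ → Prop} : (∀ n, f n ∈ phi e n) →
      (∀ n, LtO (f n) (f (n + 1))) → (∀ n, IsIter E (f n) (R n)) → IsIter E (3 * 5 ^ e) (dsum R)

theorem fsJump_eq {E : ℕ → ℕ → Prop} (hE : Equivalence E) : fsJump E = jump E := by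
  have key : ∀ u v, ({w | E u w} : Set ℕ) = {w | E v w} ↔ E u v := by
    intro u v
    constructor
    · intro h
      have : v ∈ {w | E u w} := by
        rw [h]
        exact hE.refl v
      exact this
    · intro h
      ext w
      exact ⟨fun h' => hE.trans (hE.symm h) h', fun h' => hE.trans h h'⟩
  funext x y
  apply propext
  constructor
  · intro h
    constructor
    · intro n u hu
      have h1 : {w | E u w} ∈ classes E x := ⟨n, u, hu, rfl⟩
      rw [h] at h1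
      obtain ⟨m, v, hv, h2⟩ := h1
      exact ⟨m, v, hv, (key _ _).1 h2⟩
    · intro n u hu
      have h1 : {w | E u w} ∈ classes E y := ⟨n, u, hu, rfl⟩
      rw [← h] at h1
      obtain ⟨m, v, hv, h2⟩ := h1
      exact ⟨m, v, hv, hE.symm ((key _ _).1 h2)⟩
  · rintro ⟨h1, h2⟩
    ext C
    constructor
    · rintro ⟨n, u, hu, rfl⟩
      obtain ⟨m, v, hv, h⟩ := h1 n u hu
      exact ⟨m, v, hv, (key _ _).2 h⟩
    · rintro ⟨n, u, hu, rfl⟩
      obtain ⟨m, v, hv, h⟩ := h2 n u hu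
      exact ⟨m, v, hv, (key _ _).2 (hE.symm h)⟩

theorem IsIter.equiv {E : ℕ → ℕ → Prop} (hE : Equivalence E) {a : ℕ} {R : ℕ → ℕ → Prop}
    (h : IsIter E a R) : Equivalence R := by
  induction h with
  | one => exact hE
  | succ _ ih =>
    rw [fsJump_eq ih]
    exact jump_equiv ih
  | lim _ _ _ ih => exact dsum_equiv ih

theorem InO.ne_zero {a : ℕ} (h : InO a) : a ≠ 0 := by
  cases h <;> positivity

theorem LtO.inO {a b : ℕ} (h : LtO a b) : InO a ∧ InO b :=
  LtO.rec (motive_1 := fun _ _ => True) (motive_2 := fun a b _ => InO a ∧ InO b)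
    trivial (fun _ _ => trivial) (fun _ _ _ _ _ => trivial)
    (fun h _ => ⟨h, .succ h⟩) (fun n h1 h2 h3 _ _ => ⟨h2 n, .lim h1 h2 h3⟩)
    (fun _ _ h1 h2 => ⟨h1.1, h2.2⟩) h

theorem pow_ne (a e : ℕ) : 2 ^ a ≠ 3 * 5 ^ e := by
  intro h
  have h1 : 3 ∣ 2 ^ a := by rw [h]; exact Dvd.intro _ rfl
  have h2 := Nat.Prime.dvd_of_dvd_pow Nat.prime_three h1
  omega

theorem lim_inj {e e' : ℕ} (h : 3 * 5 ^ e = 3 * 5 ^ e') : e = e' :=
  Nat.pow_right_injective (by norm_num : 2 ≤ 5) (Nat.eq_of_mul_eq_mul_left (by norm_num) h)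

theorem succ_inj {a b : ℕ} (h : 2 ^ a = 2 ^ b) : a = b :=
  Nat.pow_right_injective (by norm_num : 2 ≤ 2) h

theorem IsIter.inO {E : ℕ → ℕ → Prop} {a : ℕ} {R : ℕ → ℕ → Prop} (h : IsIter E a R) : InO a := by
  induction h with
  | one => exact .one
  | succ _ ih => exact .succ ih
  | lim h1 h2 _ ih => exact .lim h1 ih h2

theorem Denotes.inO {a : ℕ} {α : Ordinal.{0}} (h : Denotes a α) : InO a := by
  induction h with
  | one => exact .one
  | succ _ ih => exact .succ ih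
  | lim h1 h2 _ ih => exact .lim h1 ih h2

theorem IsIter.inv {E : ℕ → ℕ → Prop} {b : ℕ} {S : ℕ → ℕ → Prop} (h : IsIter E b S) :
    (b = 1 ∧ S = E) ∨ (∃ a R, IsIter E a R ∧ b = 2 ^ a ∧ S = fsJump R) ∨
      ∃ (e : ℕ) (f : ℕ → ℕ) (R : ℕ → ℕ → ℕ → Prop), (∀ n, f n ∈ phi e n) ∧ (∀ n, IsIter E (f n) (R n)) ∧
        b = 3 * 5 ^ e ∧ S = dsum R := by
  cases h with
  | one => exact Or.inl ⟨rfl, rfl⟩
  | succ h => exact Or.inr (Or.inl ⟨_, _, h, rfl, rfl⟩)
  | lim h1 h2 h3 => exact Or.inr (Or.inr ⟨_, _, _, h1, h3, rfl, rfl⟩)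

theorem IsIter.unique {E : ℕ → ℕ → Prop} {a : ℕ} {R : ℕ → ℕ → Prop} (h : IsIter E a R) :
    ∀ {S}, IsIter E a S → R = S := by
  induction h with
  | one =>
    intro S hS
    rcases hS.inv with ⟨_, h⟩ | ⟨b, R, h1, h2, h3⟩ | ⟨e, f, R, h1, h2, h3, h4⟩
    · exact h.symm
    · exfalso
      have : b = 0 := succ_inj (by rw [← h2]; rfl)
      exact h1.inO.ne_zero this
    · exact absurd h3 (pow_ne 0 e)
  | @succ b T hb ih =>
    intro S hS
    rcases hS.inv with ⟨h, _⟩ | ⟨c, R, h1, h2, h3⟩ | ⟨e, f, R, h1, h2, h3, h4⟩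
    · exfalso
      have : b = 0 := succ_inj (by rw [h]; rfl)
      exact hb.inO.ne_zero this
    · have := succ_inj h2
      subst this
      rw [h3, ih h1]
    · exact absurd h3 (pow_ne _ e)
  | @lim e f R h1 h2 h3 ih =>
    intro S hS
    rcases hS.inv with ⟨h, _⟩ | ⟨c, R', h1', h2', h3'⟩ | ⟨e', f', R', h1', h2', h3', h4'⟩
    · exact absurd h.symm (pow_ne 0 e)
    · exact absurd h2'.symm (pow_ne _ e)
    · have := lim_inj h3'
      subst this
      have hf : f = f' := by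
        funext n
        exact Part.mem_unique (h1 n) (h1' n)
      subst hf
      rw [h4']
      congr 1
      funext n
      exact ih n (h2' n)

theorem Denotes.inv {b : ℕ} {β : Ordinal.{0}} (h : Denotes b β) :
    (b = 1 ∧ β = 0) ∨ (∃ a α, Denotes a α ∧ b = 2 ^ a ∧ β = α + 1) ∨
      ∃ (e : ℕ) (f : ℕ → ℕ) (α : ℕ → Ordinal.{0}), (∀ n, f n ∈ phi e n) ∧ (∀ n, Denotes (f n) (α n)) ∧
        b = 3 * 5 ^ e ∧ β = ⨆ n, α n := by
  cases h with
  | one => exact Or.inl ⟨rfl, rfl⟩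
  | succ h => exact Or.inr (Or.inl ⟨_, _, h, rfl, rfl⟩)
  | lim h1 h2 h3 => exact Or.inr (Or.inr ⟨_, _, _, h1, h3, rfl, rfl⟩)

theorem Denotes.unique {a : ℕ} {α : Ordinal.{0}} (h : Denotes a α) :
    ∀ {β}, Denotes a β → α = β := by
  induction h with
  | one =>
    intro S hS
    rcases hS.inv with ⟨_, h⟩ | ⟨b, R, h1, h2, h3⟩ | ⟨e, f, R, h1, h2, h3, h4⟩
    · exact h.symm
    · exfalso
      have : b = 0 := succ_inj (by rw [← h2]; rfl)
      exact h1.inO.ne_zero this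
    · exact absurd h3 (pow_ne 0 e)
  | @succ b T hb ih =>
    intro S hS
    rcases hS.inv with ⟨h, _⟩ | ⟨c, R, h1, h2, h3⟩ | ⟨e, f, R, h1, h2, h3, h4⟩
    · exfalso
      have : b = 0 := succ_inj (by rw [h]; rfl)
      exact hb.inO.ne_zero this
    · have := succ_inj h2
      subst this
      rw [h3, ih h1]
    · exact absurd h3 (pow_ne _ e)
  | @lim e f R h1 h2 h3 ih =>
    intro S hS
    rcases hS.inv with ⟨h, _⟩ | ⟨c, R', h1', h2', h3'⟩ | ⟨e', f', R', h1', h2', h3', h4'⟩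
    · exact absurd h.symm (pow_ne 0 e)
    · exact absurd h2'.symm (pow_ne _ e)
    · have := lim_inj h3'
      subst this
      have hf : f = f' := by
        funext n
        exact Part.mem_unique (h1 n) (h1' n)
      subst hf
      rw [h4']
      congr 1
      funext n
      exact ih n (h2' n)

theorem exists_iter (E : ℕ → ℕ → Prop) {a : ℕ} (h : InO a) : ∃ R, IsIter E a R :=
  match h with
  | .one => ⟨E, .one⟩
  | .succ h => by
    obtain ⟨R, hR⟩ := exists_iter E h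
    exact ⟨_, .succ hR⟩
  | .lim h1 h2 h3 => by
    have h4 := fun n => exists_iter E (h2 n)
    choose R hR using h4
    exact ⟨_, .lim h1 h3 hR⟩

theorem exists_denotes {a : ℕ} (h : InO a) : ∃ α, Denotes a α :=
  match h with
  | .one => ⟨0, .one⟩
  | .succ h => by
    obtain ⟨R, hR⟩ := exists_denotes h
    exact ⟨_, .succ hR⟩
  | .lim h1 h2 h3 => by
    have h4 := fun n => exists_denotes (h2 n)
    choose R hR using h4
    exact ⟨_, .lim h1 h3 hR⟩

end Pool.Agent.K9h72.FSJ
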