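import Pool.Agent.K9h72.FSJ.KleeneO

/-!
# Two notations of `ω ^ 2` with different iterates of the FS-jump
-/

set_option autoImplicit false

namespace Pool.Agent.K9h72.FSJ

open Nat.Partrec (Code)

/-- Iterated successor notation. -/
def tow (n a : ℕ) : ℕ := (fun b => 2 ^ b)^[n] a

theorem tow_zero (a : ℕ) : tow 0 a = a := rfl

theorem tow_succ (n a : ℕ) : tow (n + 1) a = 2 ^ tow n a := Function.iterate_succ_apply' _ _ _

theorem pow2_comp : Computable fun b : ℕ => 2 ^ b := by
  have h : Computable fun b : ℕ => (Nat.rec 1 (fun _ d => 2 * d) b : ℕ) :=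
    Computable.nat_rec Computable.id (Computable.const 1)
      ((Primrec.nat_mul.to_comp.comp (Computable.const 2)
        (Computable.snd.comp Computable.snd))).to₂
  refine h.of_eq fun n => ?_
  induction n with
  | zero => rfl
  | succ n ih =>
    rw [pow_succ, ← ih, mul_comm]

theorem tow_comp : Computable₂ tow := by
  have h : Computable fun p : ℕ × ℕ => (Nat.rec p.2 (fun _ d => 2 ^ d) p.1 : ℕ) :=
    Computable.nat_rec Computable.fst Computable.snd
      (pow2_comp.comp (Computable.snd.comp Computable.snd)).to₂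
  refine h.of_eq fun p => ?_
  obtain ⟨n, a⟩ := p
  induction n with
  | zero => rfl
  | succ n ih =>
    simp only at ih ⊢
    rw [tow_succ, ← ih]

theorem exists_wi : ∃ g : ℕ → ℕ, Computable g ∧ ∀ a n, phi (g a) n = Part.some (tow n a) :=
  smn (α := ℕ) (f := fun a n => Part.some (tow n a))
    (tow_comp.comp Computable.snd Computable.fst : Computable fun p : ℕ × ℕ => tow p.2 p.1)

/-- The index of the fundamental sequence of `a + ω`. -/
noncomputable def wi : ℕ → ℕ := exists_wi.choose

theorem wi_comp : Computable wi := exists_wi.choose_spec.1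

theorem phi_wi (a n : ℕ) : phi (wi a) n = Part.some (tow n a) := exists_wi.choose_spec.2 a n

/-- The notation `a + ω`. -/
noncomputable def wp (a : ℕ) : ℕ := 3 * 5 ^ wi a

theorem pow5_comp : Computable fun b : ℕ => 3 * 5 ^ b := by
  have h : Computable fun b : ℕ => (Nat.rec 3 (fun _ d => 5 * d) b : ℕ) :=
    Computable.nat_rec Computable.id (Computable.const 3)
      ((Primrec.nat_mul.to_comp.comp (Computable.const 5)
        (Computable.snd.comp Computable.snd))).to₂
  refine h.of_eq fun n => ?_
  induction n with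
  | zero => rfl
  | succ n ih =>
    rw [pow_succ, ← mul_assoc, ← ih, mul_comm]

theorem wp_comp : Computable wp := pow5_comp.comp wi_comp

theorem wpIter_comp : Computable₂ fun n a => wp^[n] a := by
  have h : Computable fun p : ℕ × ℕ => (Nat.rec p.2 (fun _ d => wp d) p.1 : ℕ) :=
    Computable.nat_rec Computable.fst Computable.snd
      (wp_comp.comp (Computable.snd.comp Computable.snd)).to₂
  refine h.of_eq fun p => ?_
  obtain ⟨n, a⟩ := p
  induction n with
  | zero => rfl
  | succ n ih =>
    simp only at ih ⊢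
    rw [Function.iterate_succ_apply', ← ih]

/-! ### The order -/

theorem tow_inO {a : ℕ} (h : InO a) (n : ℕ) : InO (tow n a) := by
  induction n with
  | zero => exact h
  | succ n ih =>
    rw [tow_succ]
    exact .succ ih

theorem tow_lt {a : ℕ} (h : InO a) (n : ℕ) : LtO (tow n a) (tow (n + 1) a) := by
  rw [tow_succ]
  exact .succ (tow_inO h n)

theorem wp_inO {a : ℕ} (h : InO a) : InO (wp a) :=
  .lim (f := fun n => tow n a) (fun n => by rw [phi_wi]; exact Part.mem_some _) (tow_inO h)
    (tow_lt h)

theorem tow_lt_wp {a : ℕ} (h : InO a) (n : ℕ) : LtO (tow n a) (wp a) :=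
  .lim (f := fun n => tow n a) n (fun n => by rw [phi_wi]; exact Part.mem_some _) (tow_inO h)
    (tow_lt h)

theorem wpIter_inO {a : ℕ} (h : InO a) (n : ℕ) : InO (wp^[n] a) := by
  induction n with
  | zero => exact h
  | succ n ih =>
    rw [Function.iterate_succ_apply']
    exact wp_inO ih

/-- Strictly below, or equal. -/
def LeO (a b : ℕ) : Prop := a = b ∨ LtO a b

theorem LtO.trans_le {a b c : ℕ} (h : LtO a b) (h' : LeO b c) : LtO a c := by
  rcases h' with rfl | h'
  · exact h
  · exact .trans h h'

theorem LeO.trans {a b c : ℕ} (h : LeO a b) (h' : LeO b c) : LeO a c := by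
  rcases h with rfl | h
  · exact h'
  · exact Or.inr (h.trans_le h')

theorem le_tow {a : ℕ} (h : InO a) (n : ℕ) : LeO a (tow n a) := by
  induction n with
  | zero => exact Or.inl rfl
  | succ n ih => exact ih.trans (Or.inr (tow_lt h n))

theorem le_wpIter {a : ℕ} (h : InO a) (n : ℕ) : LeO a (wp^[n] a) := by
  induction n with
  | zero => exact Or.inl rfl
  | succ n ih =>
    rw [Function.iterate_succ_apply']
    exact ih.trans (Or.inr (tow_lt_wp (wpIter_inO h n) 0))

theorem tow_lt_wpIter {a : ℕ} (h : InO a) (n k : ℕ) : LtO (tow n a) (wp^[k + 1] a) := by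
  rw [Function.iterate_succ_apply]
  exact (tow_lt_wp h n).trans_le (le_wpIter (wp_inO h) k)

/-! ### Ordinals -/

open Ordinal

theorem tow_denotes {a : ℕ} {α : Ordinal.{0}} (h : Denotes a α) (n : ℕ) :
    Denotes (tow n a) (α + n) := by
  induction n with
  | zero =>
    rw [tow_zero]
    simpa using h
  | succ n ih =>
    rw [tow_succ]
    have h1 := Denotes.succ ih
    have h2 : α + (n : Ordinal.{0}) + 1 = α + ((n + 1 : ℕ) : Ordinal.{0}) := by
      rw [Nat.cast_succ, add_assoc]
    rw [← h2]
    exact h1

theorem iSup_add_nat (α : Ordinal.{0}) : ⨆ n : ℕ, (α + n) = α + ω := by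
  apply le_antisymm
  · exact Ordinal.iSup_le fun n => by gcongr; exact (natCast_lt_omega0 n).le
  · rw [← Ordinal.iSup_natCast]
    exact ((isNormal_add_right α).map_iSup (g := fun n : ℕ => (n : Ordinal.{0}))
      Ordinal.bddAbove_of_small).le

theorem wp_denotes {a : ℕ} {α : Ordinal.{0}} (h : Denotes a α) : Denotes (wp a) (α + ω) := by
  rw [← iSup_add_nat]
  exact .lim (f := fun n => tow n a) (fun n => by rw [phi_wi]; exact Part.mem_some _)
    (tow_lt h.inO) (tow_denotes h)

theorem wpIter_denotes {a : ℕ} {α : Ordinal.{0}} (h : Denotes a α) (n : ℕ) :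
    Denotes (wp^[n] a) (α + ω * n) := by
  induction n with
  | zero => simpa using h
  | succ n ih =>
    rw [Function.iterate_succ_apply']
    have h1 := wp_denotes ih
    have h2 : α + ω * (n : Ordinal.{0}) + ω = α + ω * ((n + 1 : ℕ) : Ordinal.{0}) := by
      rw [Nat.cast_succ, mul_add, mul_one, add_assoc]
    rw [← h2]
    exact h1

/-! ### Iterates -/

theorem tow_iter {E : ℕ → ℕ → Prop} (hE : Equivalence E) {a : ℕ} {R : ℕ → ℕ → Prop}
    (h : IsIter E a R) (n : ℕ) : IsIter E (tow n a) (jump^[n] R) := by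
  induction n with
  | zero => exact h
  | succ n ih =>
    rw [tow_succ, Function.iterate_succ_apply', ← fsJump_eq (iter_equiv (h.equiv hE) n)]
    exact .succ ih

theorem wp_iter {E : ℕ → ℕ → Prop} (hE : Equivalence E) {a : ℕ} {R : ℕ → ℕ → Prop}
    (h : IsIter E a R) : IsIter E (wp a) (omegaJump R) :=
  .lim (f := fun n => tow n a) (fun n => by rw [phi_wi]; exact Part.mem_some _)
    (tow_lt h.inO) (tow_iter hE h)

theorem wpIter_iter {E : ℕ → ℕ → Prop} (hE : Equivalence E) {a : ℕ} {R : ℕ → ℕ → Prop}
    (h : IsIter E a R) (n : ℕ) : IsIter E (wp^[n] a) (omegaJump^[n] R) := by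
  induction n with
  | zero => exact h
  | succ n ih =>
    rw [Function.iterate_succ_apply', Function.iterate_succ_apply']
    exact wp_iter hE ih

/-! ### The standard notation -/

theorem exists_eb : ∃ e : ℕ, ∀ n, phi e n = Part.some (wp^[n] 1) := by
  obtain ⟨g, _, h⟩ := smn (α := Unit) (f := fun _ n => Part.some (wp^[n] 1))
    (wpIter_comp.comp Computable.snd (Computable.const 1) :
      Computable fun p : Unit × ℕ => wp^[p.2] 1)
  exact ⟨g (), h ()⟩

theorem iSup_omega_mul : ⨆ n : ℕ, (ω * n : Ordinal.{0}) = ω ^ 2 := by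
  rw [pow_two]
  apply le_antisymm
  · exact Ordinal.iSup_le fun n => by gcongr; exact (natCast_lt_omega0 n).le
  · have h := ((isNormal_mul_right omega0_pos).map_iSup (g := fun n : ℕ => (n : Ordinal.{0}))
      Ordinal.bddAbove_of_small).le
    rwa [Ordinal.iSup_natCast] at h

theorem exists_b : ∃ b : ℕ, Denotes b (ω ^ 2) ∧
    IsIter (fun x y => x = y) b (dsum fun n => omegaJump^[n] (fun x y : ℕ => x = y)) := by
  obtain ⟨e, he⟩ := exists_eb
  have h1 : ∀ n, wp^[n] 1 ∈ phi e n := fun n => by rw [he]; exact Part.mem_some _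
  have h2 : ∀ n, LtO (wp^[n] 1) (wp^[n + 1] 1) := fun n => by
    rw [Function.iterate_succ_apply']
    exact tow_lt_wp (wpIter_inO .one n) 0
  refine ⟨3 * 5 ^ e, ?_, ?_⟩
  · rw [← iSup_omega_mul]
    refine .lim (f := fun n => wp^[n] 1) h1 h2 fun n => ?_
    simpa using wpIter_denotes Denotes.one n
  · exact .lim (f := fun n => wp^[n] 1) h1 h2 fun n =>
      wpIter_iter ⟨fun _ => rfl, fun h => h.symm, fun h h' => h.trans h'⟩ .one n

/-! ### The diagonal notation -/

/-- The fundamental sequences of the diagonal notation: the `m`-th computation is simulated, and if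
it halts with value `v`, the sequence jumps beyond `base + ω * (v + 1)`. -/
noncomputable def gval (m base t : ℕ) : ℕ :=
  match Code.evaln t (Denumerable.ofNat Code m) m with
  | none => tow t base
  | some v => tow t (wp^[v + 1] base)

theorem gval_comp : Computable fun p : (ℕ × ℕ) × ℕ => gval p.1.1 p.1.2 p.2 := by
  have h1 : Computable fun p : (ℕ × ℕ) × ℕ =>
      Code.evaln p.2 (Denumerable.ofNat Code p.1.1) p.1.1 :=
    Code.primrec_evaln.to_comp.comp ((Computable.snd.pair
      ((Computable.ofNat Code).comp (Computable.fst.comp Computable.fst))).pair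
        (Computable.fst.comp Computable.fst))
  have h2 : Computable fun p : (ℕ × ℕ) × ℕ => tow p.2 p.1.2 :=
    tow_comp.comp Computable.snd (Computable.snd.comp Computable.fst)
  have h3 : Computable fun q : ((ℕ × ℕ) × ℕ) × ℕ => tow q.1.2 (wp^[q.2 + 1] q.1.1.2) :=
    tow_comp.comp (Computable.snd.comp Computable.fst)
      (wpIter_comp.comp (Computable.succ.comp Computable.snd)
        (Computable.snd.comp (Computable.fst.comp Computable.fst)))
  have h4 := Computable.option_casesOn h1 h2 h3.to₂
  refine h4.of_eq fun p => ?_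
  unfold gval
  cases Code.evaln p.2 (Denumerable.ofNat Code p.1.1) p.1.1 <;> rfl

theorem exists_gi : ∃ g : ℕ × ℕ → ℕ, Computable g ∧
    ∀ p t, phi (g p) t = Part.some (gval p.1 p.2 t) :=
  smn (α := ℕ × ℕ) (f := fun p t => Part.some (gval p.1 p.2 t)) gval_comp

/-- The index of the fundamental sequence `gval m base`. -/
noncomputable def gi : ℕ × ℕ → ℕ := exists_gi.choose

theorem gi_comp : Computable gi := exists_gi.choose_spec.1

theorem phi_gi (p : ℕ × ℕ) (t : ℕ) : phi (gi p) t = Part.some (gval p.1 p.2 t) :=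
  exists_gi.choose_spec.2 p t

/-- The notation with fundamental sequence `gval m base`. -/
noncomputable def gn (m base : ℕ) : ℕ := 3 * 5 ^ gi (m, base)

/-- The fundamental sequence of the diagonal notation. -/
noncomputable def B : ℕ → ℕ
  | 0 => 2
  | m + 1 => 2 ^ gn m (B m)

theorem B_comp : Computable B := by
  have h : Computable fun n : ℕ => (Nat.rec 2 (fun m d => 2 ^ gn m d) n : ℕ) :=
    Computable.nat_rec Computable.id (Computable.const 2)
      (pow2_comp.comp (pow5_comp.comp (gi_comp.comp Computable.snd))).to₂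
  refine h.of_eq fun n => ?_
  induction n with
  | zero => rfl
  | succ n ih =>
    rw [B, ← ih]

theorem gval_zero (m base : ℕ) : gval m base 0 = base := by
  simp [gval, Code.evaln, tow]

theorem gval_inO {m base : ℕ} (h : InO base) (t : ℕ) : InO (gval m base t) := by
  unfold gval
  split
  · exact tow_inO h t
  · exact tow_inO (wpIter_inO h _) t

theorem gval_lt {m base : ℕ} (h : InO base) (t : ℕ) :
    LtO (gval m base t) (gval m base (t + 1)) := by
  rcases h1 : Code.evaln t (Denumerable.ofNat Code m) m with _ | v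
  · rcases h2 : Code.evaln (t + 1) (Denumerable.ofNat Code m) m with _ | v
    · simp only [gval, h1, h2]
      exact tow_lt h t
    · simp only [gval, h1, h2]
      exact (tow_lt_wpIter h t v).trans_le (le_tow (wpIter_inO h _) _)
  · have h2 : Code.evaln (t + 1) (Denumerable.ofNat Code m) m = some v :=
      Code.evaln_mono (Nat.le_succ t) h1
    simp only [gval, h1, h2]
    exact tow_lt (wpIter_inO h _) t

theorem gn_inO {m base : ℕ} (h : InO base) : InO (gn m base) :=
  .lim (f := fun t => gval m base t) (fun t => by rw [phi_gi]; exact Part.mem_some _)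
    (gval_inO h) (gval_lt h)

theorem B_inO (m : ℕ) : InO (B m) := by
  induction m with
  | zero => exact .succ .one
  | succ m ih => exact .succ (gn_inO ih)

theorem B_lt (m : ℕ) : LtO (B m) (B (m + 1)) := by
  have h1 : LtO (gval m (B m) 0) (gn m (B m)) :=
    .lim (f := fun t => gval m (B m) t) 0 (fun t => by rw [phi_gi]; exact Part.mem_some _)
      (gval_inO (B_inO m)) (gval_lt (B_inO m))
  rw [gval_zero] at h1
  exact .trans h1 (.succ (gn_inO (B_inO m)))

theorem gn_denotes {m base : ℕ} {α : Ordinal.{0}} (h : Denotes base α) (hα : α < ω ^ 2) :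
    ∃ γ, Denotes (gn m base) γ ∧ α + ω ≤ γ ∧ γ < ω ^ 2 := by
  obtain ⟨K, hK⟩ : ∃ K : ℕ, ∀ t v, Code.evaln t (Denumerable.ofNat Code m) m = some v →
      v + 2 ≤ K := by
    by_cases hh : ∃ t v, Code.evaln t (Denumerable.ofNat Code m) m = some v
    · obtain ⟨t, v, htv⟩ := hh
      refine ⟨v + 2, fun t' v' h' => ?_⟩
      have := Part.mem_unique (Code.evaln_sound htv) (Code.evaln_sound h')
      omega
    · push Not at hh
      exact ⟨0, fun t v h' => absurd h' (hh t v)⟩
  have h1 : ∀ t, ∃ δ, Denotes (gval m base t) δ ∧ α + t ≤ δ ∧ δ ≤ α + ω * (K + 1 : ℕ) := by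
    intro t
    rcases he : Code.evaln t (Denumerable.ofNat Code m) m with _ | v
    · refine ⟨α + t, ?_, le_rfl, ?_⟩
      · simp only [gval, he]
        exact tow_denotes h t
      · gcongr
        calc (t : Ordinal.{0}) ≤ ω := (natCast_lt_omega0 t).le
          _ = ω * 1 := (mul_one _).symm
          _ ≤ ω * (K + 1 : ℕ) := by
            gcongr
            exact_mod_cast Nat.le_add_left 1 K
    · refine ⟨α + ω * (v + 1 : ℕ) + t, ?_, ?_, ?_⟩
      · simp only [gval, he]
        exact tow_denotes (wpIter_denotes h (v + 1)) t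
      · rw [add_assoc]
        gcongr
        exact le_add_self
      · rw [add_assoc]
        gcongr
        calc ω * ((v + 1 : ℕ) : Ordinal.{0}) + t ≤ ω * ((v + 1 : ℕ) : Ordinal.{0}) + ω := by
              gcongr
              exact (natCast_lt_omega0 t).le
          _ = ω * ((v + 2 : ℕ) : Ordinal.{0}) := by
            have : ((v + 2 : ℕ) : Ordinal.{0}) = ((v + 1 : ℕ) : Ordinal.{0}) + 1 := by
              rw [← Nat.cast_succ]
            rw [this, mul_add, mul_one]
          _ ≤ ω * (K + 1 : ℕ) := by
            have h7 : ((v + 2 : ℕ) : Ordinal.{0}) ≤ ((K + 1 : ℕ) : Ordinal.{0}) := by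
              have := hK t v he
              exact_mod_cast (show v + 2 ≤ K + 1 by omega)
            exact mul_le_mul' le_rfl h7
  choose δ hδ1 hδ2 hδ3 using h1
  refine ⟨⨆ t, δ t, .lim (f := fun t => gval m base t) (fun t => by
    rw [phi_gi]; exact Part.mem_some _) (gval_lt h.inO) hδ1, ?_, ?_⟩
  · rw [← iSup_add_nat]
    exact Ordinal.iSup_le fun t => (hδ2 t).trans (Ordinal.le_iSup δ t)
  · refine lt_of_le_of_lt (Ordinal.iSup_le hδ3) ?_
    have h2 : ω * ((K + 1 : ℕ) : Ordinal.{0}) < ω ^ 2 := by
      rw [pow_two]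
      gcongr
      · exact omega0_pos
      · exact natCast_lt_omega0 _
    have h3 : IsPrincipal (· + ·) ((ω : Ordinal.{0}) ^ 2) := by
      have := isPrincipal_add_omega0_opow 2
      have e : (ω : Ordinal.{0}) ^ (2 : Ordinal.{0}) = ω ^ 2 := by
        exact_mod_cast opow_natCast ω 2
      rwa [e] at this
    exact h3 hα h2

theorem B_denotes (m : ℕ) : ∃ β, Denotes (B m) β ∧ ω * m ≤ β ∧ β < ω ^ 2 := by
  have h1 : (1 : Ordinal.{0}) < ω ^ 2 := by
    rw [pow_two]
    calc (1 : Ordinal.{0}) < ω := one_lt_omega0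
      _ = ω * 1 := (mul_one _).symm
      _ ≤ ω * ω := by
        gcongr
        exact one_lt_omega0.le
  induction m with
  | zero =>
    refine ⟨0 + 1, .succ .one, by simp, by simp⟩
  | succ m ih =>
    obtain ⟨β, hβ, h2, h3⟩ := ih
    obtain ⟨γ, hγ, h4, h5⟩ := gn_denotes (m := m) hβ h3
    refine ⟨γ + 1, .succ hγ, ?_, ?_⟩
    · rw [Nat.cast_succ, mul_add, mul_one]
      calc ω * (m : Ordinal.{0}) + ω ≤ β + ω := by gcongr
        _ ≤ γ := h4
        _ ≤ γ + 1 := le_self_add
    · have h6 : IsPrincipal (· + ·) ((ω : Ordinal.{0}) ^ 2) := by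
        have := isPrincipal_add_omega0_opow 2
        have e : (ω : Ordinal.{0}) ^ (2 : Ordinal.{0}) = ω ^ 2 := by
          exact_mod_cast opow_natCast ω 2
        rwa [e] at this
      exact h6 h5 h1

theorem exists_ea : ∃ e : ℕ, ∀ n, phi e n = Part.some (B n) := by
  obtain ⟨g, _, h⟩ := smn (α := Unit) (f := fun _ n => Part.some (B n))
    (B_comp.comp Computable.snd : Computable fun p : Unit × ℕ => B p.2)
  exact ⟨g (), h ()⟩

theorem exists_a : ∃ a : ℕ, Denotes a (ω ^ 2) ∧
    ∀ (E : ℕ → ℕ → Prop), ∃ R : ℕ → ℕ → ℕ → Prop, (∀ n, IsIter E (B n) (R n)) ∧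
      IsIter E a (dsum R) := by
  obtain ⟨e, he⟩ := exists_ea
  have h1 : ∀ n, B n ∈ phi e n := fun n => by rw [he]; exact Part.mem_some _
  refine ⟨3 * 5 ^ e, ?_, fun E => ?_⟩
  · have h2 := B_denotes
    choose β hβ h3 h4 using h2
    have h5 : (ω : Ordinal.{0}) ^ 2 = ⨆ n, β n := by
      apply le_antisymm
      · rw [← iSup_omega_mul]
        exact Ordinal.iSup_le fun n => (h3 n).trans (Ordinal.le_iSup β n)
      · exact Ordinal.iSup_le fun n => (h4 n).le
    rw [h5]
    exact .lim h1 B_lt hβ
  · have h2 := fun n => exists_iter E (B_inO n)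
    choose R hR using h2
    exact ⟨R, hR, .lim h1 B_lt hR⟩

/-! ### The main theorem -/

theorem red_jump (E : ℕ → ℕ → Prop) : Red E (jump E) := by
  obtain ⟨sing, hsing, hs⟩ := smn (α := ℕ) (f := fun u _ => Part.some u)
    (Computable.fst : Computable fun q : ℕ × ℕ => q.1)
  refine ⟨sing, hsing, fun x y => ?_⟩
  simp only [jump, hs, Part.mem_some_iff]
  constructor
  · intro h
    exact ⟨fun _ u hu => ⟨0, y, rfl, by rw [hu]; exact h⟩, fun _ u hu => ⟨0, x, rfl, by
      rw [hu]; exact h⟩⟩
  · rintro ⟨h, _⟩
    obtain ⟨_, v', h1, h2⟩ := h 0 x rfl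
    rw [h1] at h2
    exact h2

theorem red_iter (E : ℕ → ℕ → Prop) (n : ℕ) : Red E (jump^[n] E) := by
  induction n with
  | zero => exact Red.refl E
  | succ n ih =>
    rw [Function.iterate_succ_apply']
    exact ih.trans (red_jump _)

theorem main : ∃ a b : ℕ, Denotes a (ω ^ 2) ∧ Denotes b (ω ^ 2) ∧
    ∃ R S, IsIter (fun x y => x = y) a R ∧ IsIter (fun x y => x = y) b S ∧ ¬ Red R S := by
  obtain ⟨a, ha, haR⟩ := exists_a
  obtain ⟨b, hb, hS⟩ := exists_b
  set I : ℕ → ℕ → Prop := fun x y => x = y with hI
  have hIe : Equivalence I := ⟨fun _ => rfl, fun h => h.symm, fun h h' => h.trans h'⟩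
  obtain ⟨R, hR, haR⟩ := haR I
  refine ⟨a, b, ha, hb, _, _, haR, hS, ?_⟩
  rintro ⟨f, hf, hfR⟩
  -- the structure of the columns
  have hcol : ∀ m, ∃ G : ℕ → ℕ → ℕ → Prop, (∀ t, IsIter I (gval m (B m) t) (G t)) ∧
      R (m + 1) = jump (dsum G) := by
    intro m
    have h1 := fun t => exists_iter I (gval_inO (m := m) (B_inO m) t)
    choose G hG using h1
    have h2 : IsIter I (gn m (B m)) (dsum G) :=
      .lim (f := fun t => gval m (B m) t) (fun t => by rw [phi_gi]; exact Part.mem_some _)
        (gval_lt (B_inO m)) hG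
    refine ⟨G, hG, ?_⟩
    rw [← fsJump_eq (h2.equiv hIe)]
    exact (hR (m + 1)).unique (.succ h2)
  -- equality reduces to every column
  have hred : ∀ m, Red I (R m) := by
    intro m
    induction m with
    | zero =>
      have h1 : IsIter I (B 0) (fsJump I) := .succ .one
      rw [(hR 0).unique h1, fsJump_eq hIe]
      exact red_jump I
    | succ m ih =>
      obtain ⟨G, hG, hG'⟩ := hcol m
      rw [hG']
      have h1 : IsIter I (B m) (G 0) := by
        have := hG 0
        rwa [gval_zero] at this
      have h2 := red_dsum G 0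
      rw [← (hR m).unique h1] at h2
      exact ih.trans (h2.trans (red_jump _))
  -- the diagonal argument
  have hh : Computable fun m : ℕ => (f (Nat.pair (m + 1) 0)).unpair.1 :=
    Computable.fst.comp (Computable.unpair.comp (hf.comp
      ((Primrec₂.natPair.to_comp).comp Computable.succ (Computable.const 0))))
  obtain ⟨c, hc⟩ := Code.exists_code.1 (Partrec.nat_iff.1 hh)
  set m := Encodable.encode c with hm
  set v := (f (Nat.pair (m + 1) 0)).unpair.1 with hv
  have hv' : v ∈ Code.eval (Denumerable.ofNat Code m) m := by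
    rw [hm, Denumerable.ofNat_encode, hc]
    simp [hv, hm]
  obtain ⟨t, ht⟩ := Code.evaln_complete.1 hv'
  obtain ⟨G, hG, hG'⟩ := hcol m
  have hcolt : G t = jump^[t] (omegaJump^[v + 1] (R m)) := by
    have h1 := hG t
    have h2 : gval m (B m) t = tow t (wp^[v + 1] (B m)) := by
      rw [Option.mem_def] at ht
      simp only [gval, ht]
    rw [h2] at h1
    exact h1.unique (tow_iter hIe (wpIter_iter hIe (hR m) (v + 1)) t)
  have hlow : Red (omegaJump^[v + 1] I) (dsum G) := by
    refine ((hred m).omIter (v + 1)).trans ((red_iter _ t).trans ?_)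
    rw [← hcolt]
    exact red_dsum G t
  -- Rice's theorem
  have hrice : ∀ x, (f (Nat.pair (m + 1) x)).unpair.1 = v := by
    have hdec : ComputablePred fun c : Code =>
        c ∈ {c : Code | (f (Nat.pair (m + 1) (Encodable.encode c))).unpair.1 = v} := by
      have h1 : Computable fun c : Code => (f (Nat.pair (m + 1) (Encodable.encode c))).unpair.1 :=
        Computable.fst.comp (Computable.unpair.comp (hf.comp
          ((Primrec₂.natPair.to_comp).comp (Computable.const (m + 1)) Computable.encode)))
      refine ⟨fun _ => Nat.decEq _ _, ?_⟩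
      have h2 : Computable fun c : Code =>
          ((f (Nat.pair (m + 1) (Encodable.encode c))).unpair.1 == v) :=
        (Primrec.beq.to_comp).comp h1 (Computable.const v)
      refine h2.of_eq fun c => ?_
      simp only [Set.mem_ofPred_eq]
      rfl
    have hext : ∀ cf cg : Code, cf.eval = cg.eval →
        (cf ∈ {c : Code | (f (Nat.pair (m + 1) (Encodable.encode c))).unpair.1 = v} ↔
          cg ∈ {c : Code | (f (Nat.pair (m + 1) (Encodable.encode c))).unpair.1 = v}) := by
      intro cf cg h
      have h1 : dsum R (Nat.pair (m + 1) (Encodable.encode cf))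
          (Nat.pair (m + 1) (Encodable.encode cg)) := by
        refine ⟨by simp, ?_⟩
        simp only [Nat.unpair_pair]
        rw [hG']
        have h2 : phi (Encodable.encode cf) = phi (Encodable.encode cg) := by
          rw [phi_encode, phi_encode, h]
        have h3 : Equivalence (jump (dsum G)) := by
          have := (hR (m + 1)).equiv hIe
          rwa [hG'] at this
        have h4 := h3.refl (Encodable.encode cf)
        unfold jump at h4 ⊢
        rw [← h2]
        exact h4
      have h2 := ((hfR _ _).1 h1).1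
      simp only [Set.mem_ofPred_eq]
      rw [h2]
    rcases (ComputablePred.rice₂ _ hext).1 hdec with h | h
    · exfalso
      have h1 : Denumerable.ofNat Code 0 ∈
          {c : Code | (f (Nat.pair (m + 1) (Encodable.encode c))).unpair.1 = v} := by
        simp [hv]
      rw [h] at h1
      exact h1
    · intro x
      have h1 : Denumerable.ofNat Code x ∈
          {c : Code | (f (Nat.pair (m + 1) (Encodable.encode c))).unpair.1 = v} := by
        rw [h]
        exact Set.mem_univ _
      simpa using h1
  have hup : Red (dsum G) (omegaJump^[v] I) := by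
    refine (red_jump _).trans ?_
    rw [← hG']
    refine ⟨fun x => (f (Nat.pair (m + 1) x)).unpair.2, ?_, fun x y => ?_⟩
    · exact Computable.snd.comp (Computable.unpair.comp (hf.comp
        ((Primrec₂.natPair.to_comp).comp (Computable.const (m + 1)) Computable.id)))
    · have h1 := hfR (Nat.pair (m + 1) x) (Nat.pair (m + 1) y)
      simp only [dsum, Nat.unpair_pair, true_and, hrice] at h1
      exact h1
  exact separation hlow hup

end Pool.Agent.K9h72.FSJ
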