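import Pool.Agent.K9h72.FSJ.Core

/-!
# Coding the complement of an iterate of the FS-jump in a higher iterate
-/

set_option autoImplicit false

namespace Pool.Agent.K9h72.FSJ

open Nat.Partrec (Code)

/-- The code `c` computes a many-one reduction of the complement of `E` to `F`. -/
def CNeg (c : Code) (E F : ℕ → ℕ → Prop) : Prop :=
  ∃ f : ℕ → ℕ, (∀ x, f x ∈ c.eval x) ∧
    ∀ x y, ¬ E x y ↔ F (f (Nat.pair x y)).unpair.1 (f (Nat.pair x y)).unpair.2

/-- The complement of `E` is many-one reducible to `F`. -/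
def Neg (E F : ℕ → ℕ → Prop) : Prop :=
  ∃ f : ℕ → ℕ, Computable f ∧
    ∀ x y, ¬ E x y ↔ F (f (Nat.pair x y)).unpair.1 (f (Nat.pair x y)).unpair.2

theorem CNeg.neg {c : Code} {E F : ℕ → ℕ → Prop} (h : CNeg c E F) : Neg E F := by
  obtain ⟨f, h1, h2⟩ := h
  exact ⟨f, computable_of_mem h1, h2⟩

theorem Neg.exists_code {E F : ℕ → ℕ → Prop} (h : Neg E F) : ∃ c, CNeg c E F := by
  obtain ⟨f, h1, h2⟩ := h
  obtain ⟨c, hc⟩ := Code.exists_code.1 (Partrec.nat_iff.1 h1)
  refine ⟨c, f, fun x => ?_, h2⟩
  rw [hc]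
  simp

theorem Neg.trans_red {E F G : ℕ → ℕ → Prop} (h : Neg E F) (h' : Red F G) : Neg E G := by
  obtain ⟨f, h1, h2⟩ := h
  obtain ⟨g, h3, h4⟩ := h'
  refine ⟨fun x => Nat.pair (g (f x).unpair.1) (g (f x).unpair.2), ?_, fun x y => ?_⟩
  · exact (Primrec₂.natPair.to_comp).comp
      (h3.comp (Computable.fst.comp (Computable.unpair.comp h1)))
      (h3.comp (Computable.snd.comp (Computable.unpair.comp h1)))
  · rw [h2, h4]
    simp

theorem Neg.of_red {E F G : ℕ → ℕ → Prop} (h : Red E F) (h' : Neg F G) : Neg E G := by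
  obtain ⟨g, h1, h2⟩ := h
  obtain ⟨f, h3, h4⟩ := h'
  refine ⟨fun x => f (Nat.pair (g x.unpair.1) (g x.unpair.2)), ?_, fun x y => ?_⟩
  · exact h3.comp ((Primrec₂.natPair.to_comp).comp
      (h1.comp (Computable.fst.comp Computable.unpair))
      (h1.comp (Computable.snd.comp Computable.unpair)))
  · rw [h2, h4]
    simp

/-- The complement of a jump is not many-one reducible to the jump itself (double recursion
theorem). -/
theorem not_neg_self (E : ℕ → ℕ → Prop) : ¬ Neg (jump E) (jump E) := by
  rintro ⟨f, hf, h⟩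
  have hx : Computable fun c : Code => Encodable.encode (Code.curry c 0) :=
    (Primrec.encode.comp (Code.primrec₂_curry.comp Primrec.id (Primrec.const 0))).to_comp
  have hy : Computable fun c : Code => Encodable.encode (Code.curry c 1) :=
    (Primrec.encode.comp (Code.primrec₂_curry.comp Primrec.id (Primrec.const 1))).to_comp
  have hF : Computable fun c : Code => f (Nat.pair (Encodable.encode (Code.curry c 0))
      (Encodable.encode (Code.curry c 1))) :=
    hf.comp ((Primrec₂.natPair.to_comp).comp hx hy)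
  obtain ⟨c, hc⟩ := Code.fixed_point₂ (f := fun c z => cond (z.unpair.1 == 0)
      (phi (f (Nat.pair (Encodable.encode (Code.curry c 0))
        (Encodable.encode (Code.curry c 1)))).unpair.1 z.unpair.2)
      (phi (f (Nat.pair (Encodable.encode (Code.curry c 0))
        (Encodable.encode (Code.curry c 1)))).unpair.2 z.unpair.2)) (by
    refine Partrec.cond ?_ ?_ ?_
    · exact (Primrec.beq.comp (Primrec.fst.comp (Primrec.unpair.comp Primrec.snd))
        (Primrec.const 0)).to_comp
    · exact phi_part.comp (Computable.fst.comp (Computable.unpair.comp (hF.comp Computable.fst)))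
        (Computable.snd.comp (Computable.unpair.comp Computable.snd))
    · exact phi_part.comp (Computable.snd.comp (Computable.unpair.comp (hF.comp Computable.fst)))
        (Computable.snd.comp (Computable.unpair.comp Computable.snd)))
  have h1' : ∀ n, phi (Encodable.encode (Code.curry c 0)) n = c.eval (Nat.pair 0 n) := by
    intro n
    rw [phi_encode, Code.eval_curry]
  have h2' : ∀ n, phi (Encodable.encode (Code.curry c 1)) n = c.eval (Nat.pair 1 n) := by
    intro n
    rw [phi_encode, Code.eval_curry]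
  rw [hc] at h1' h2'
  simp only [Nat.unpair_pair, beq_self_eq_true, cond_true] at h1' h2'
  generalize Encodable.encode (Code.curry c 0) = x at h1' h2'
  generalize Encodable.encode (Code.curry c 1) = y at h1' h2'
  have h1 : ∀ n, phi x n = phi (f (Nat.pair x y)).unpair.1 n := h1'
  have h2 : ∀ n, phi y n = phi (f (Nat.pair x y)).unpair.2 n := h2'
  have h3 : jump E x y ↔ jump E (f (Nat.pair x y)).unpair.1 (f (Nat.pair x y)).unpair.2 := by
    unfold jump
    simp only [h1, h2]
  have h4 := h x y
  tauto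

/-- The family of the sets `Z`. -/
def fam (Z : Code × ℕ × ℕ × ℕ → ℕ) (p : Code × ℕ × ℕ) (j : ℕ) : Part ℕ :=
  cond (j.unpair.1 == 0)
    ((phi p.2.1 j.unpair.2).map fun _ => Z (p.1, p.2.1, p.2.2, j.unpair.2))
    ((phi p.2.2 j.unpair.2).map fun _ => Z (p.1, p.2.2, p.2.1, j.unpair.2))

theorem fam_partrec {Z : Code × ℕ × ℕ × ℕ → ℕ} (hZ : Computable Z) : Partrec₂ (fam Z) := by
  have hb : Computable fun q : (Code × ℕ × ℕ) × ℕ => (q.2.unpair.1 == 0) :=
    (Primrec.beq.comp (Primrec.fst.comp (Primrec.unpair.comp Primrec.snd))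
        (Primrec.const 0)).to_comp
  have h1 : Partrec fun q : (Code × ℕ × ℕ) × ℕ => phi q.1.2.1 q.2.unpair.2 :=
    phi_part.comp (Computable.fst.comp (Computable.snd.comp Computable.fst))
        (Computable.snd.comp (Computable.unpair.comp Computable.snd))
  have h2 : Partrec fun q : (Code × ℕ × ℕ) × ℕ => phi q.1.2.2 q.2.unpair.2 :=
    phi_part.comp (Computable.snd.comp (Computable.snd.comp Computable.fst))
        (Computable.snd.comp (Computable.unpair.comp Computable.snd))
  have t1 : Computable fun q : (Code × ℕ × ℕ) × ℕ => (q.1.1, q.1.2.1, q.1.2.2, q.2.unpair.2) :=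
    (Computable.fst.comp Computable.fst).pair
      ((Computable.fst.comp (Computable.snd.comp Computable.fst)).pair
        ((Computable.snd.comp (Computable.snd.comp Computable.fst)).pair
          (Computable.snd.comp (Computable.unpair.comp Computable.snd))))
  have t2 : Computable fun q : (Code × ℕ × ℕ) × ℕ => (q.1.1, q.1.2.2, q.1.2.1, q.2.unpair.2) :=
    (Computable.fst.comp Computable.fst).pair
      ((Computable.snd.comp (Computable.snd.comp Computable.fst)).pair
        ((Computable.fst.comp (Computable.snd.comp Computable.fst)).pair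
          (Computable.snd.comp (Computable.unpair.comp Computable.snd))))
  have z1 : Computable fun q : (Code × ℕ × ℕ) × ℕ => Z (q.1.1, q.1.2.1, q.1.2.2, q.2.unpair.2) :=
    hZ.comp t1
  have z2 : Computable fun q : (Code × ℕ × ℕ) × ℕ => Z (q.1.1, q.1.2.2, q.1.2.1, q.2.unpair.2) :=
    hZ.comp t2
  have m1 : Partrec fun q : (Code × ℕ × ℕ) × ℕ => (phi q.1.2.1 q.2.unpair.2).map
      fun _ => Z (q.1.1, q.1.2.1, q.1.2.2, q.2.unpair.2) :=
    Partrec.map h1 (z1.comp Computable.fst).to₂
  have m2 : Partrec fun q : (Code × ℕ × ℕ) × ℕ => (phi q.1.2.2 q.2.unpair.2).map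
      fun _ => Z (q.1.1, q.1.2.2, q.1.2.1, q.2.unpair.2) :=
    Partrec.map h2 (z2.comp Computable.fst).to₂
  exact Partrec.cond hb m1 m2

/-- The elements of the set `Z`. -/
def zfun (sing : ℕ → ℕ) (prs : ℕ × ℕ → ℕ) (p : Code × ℕ × ℕ × ℕ) (k : ℕ) : Part ℕ :=
  cond (k.unpair.1 == 0) (Part.some (sing k.unpair.2))
    ((phi p.2.1 p.2.2.2).bind fun u => (phi p.2.2.1 k.unpair.2).bind fun v =>
      (p.1.eval (Nat.pair u v)).map fun z => prs (z.unpair.1, z.unpair.2))

theorem zfun_partrec {sing : ℕ → ℕ} {prs : ℕ × ℕ → ℕ} (hs : Computable sing)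
    (hp : Computable prs) : Partrec₂ (zfun sing prs) := by
  have hb : Computable fun q : (Code × ℕ × ℕ × ℕ) × ℕ => (q.2.unpair.1 == 0) :=
    (Primrec.beq.comp (Primrec.fst.comp (Primrec.unpair.comp Primrec.snd))
        (Primrec.const 0)).to_comp
  have h0 : Computable fun q : (Code × ℕ × ℕ × ℕ) × ℕ => sing q.2.unpair.2 :=
    hs.comp (Computable.snd.comp (Computable.unpair.comp Computable.snd))
  have h1 : Partrec fun q : (Code × ℕ × ℕ × ℕ) × ℕ => phi q.1.2.1 q.1.2.2.2 :=
    phi_part.comp (Computable.fst.comp (Computable.snd.comp Computable.fst))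
      (Computable.snd.comp (Computable.snd.comp (Computable.snd.comp Computable.fst)))
  have h2 : Partrec fun q : ((Code × ℕ × ℕ × ℕ) × ℕ) × ℕ => phi q.1.1.2.2.1 q.1.2.unpair.2 :=
    phi_part.comp (Computable.fst.comp (Computable.snd.comp (Computable.snd.comp
          (Computable.fst.comp Computable.fst))))
        (Computable.snd.comp (Computable.unpair.comp (Computable.snd.comp Computable.fst)))
  have h3 : Partrec fun q : (((Code × ℕ × ℕ × ℕ) × ℕ) × ℕ) × ℕ =>
      q.1.1.1.1.eval (Nat.pair q.1.2 q.2) :=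
    Code.eval_part.comp
        (Computable.fst.comp (Computable.fst.comp (Computable.fst.comp Computable.fst)))
        ((Primrec₂.natPair.to_comp).comp (Computable.snd.comp Computable.fst) Computable.snd)
  have h4 : Computable fun q : ((((Code × ℕ × ℕ × ℕ) × ℕ) × ℕ) × ℕ) × ℕ =>
      prs (q.2.unpair.1, q.2.unpair.2) :=
    hp.comp ((Computable.fst.comp (Computable.unpair.comp Computable.snd)).pair
        (Computable.snd.comp (Computable.unpair.comp Computable.snd)))
  have h5 : Partrec fun q : (((Code × ℕ × ℕ × ℕ) × ℕ) × ℕ) × ℕ =>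
      (q.1.1.1.1.eval (Nat.pair q.1.2 q.2)).map fun z => prs (z.unpair.1, z.unpair.2) :=
    Partrec.map h3 h4.to₂
  have h6 : Partrec fun q : ((Code × ℕ × ℕ × ℕ) × ℕ) × ℕ =>
      (phi q.1.1.2.2.1 q.1.2.unpair.2).bind fun v =>
      (q.1.1.1.eval (Nat.pair q.2 v)).map fun z => prs (z.unpair.1, z.unpair.2) :=
    Partrec.bind h2 h5.to₂
  have h7 : Partrec fun q : (Code × ℕ × ℕ × ℕ) × ℕ =>
      (phi q.1.2.1 q.1.2.2.2).bind fun u => (phi q.1.2.2.1 q.2.unpair.2).bind fun v =>
      (q.1.1.eval (Nat.pair u v)).map fun z => prs (z.unpair.1, z.unpair.2) :=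
    Partrec.bind h1 h6.to₂
  exact Partrec.cond hb h0 h7

set_option maxHeartbeats 1000000 in
/-- One step of the coding: from a reduction of the complement of `E` to `F` we get a reduction of
the complement of the jump of `E` to the third jump of `F`. -/
theorem stepNeg : ∃ T : Code → Code, Computable T ∧
    ∀ c E F, Equivalence E → Equivalence F → CNeg c E F →
      CNeg (T c) (jump E) (jump (jump (jump F))) := by
  -- unordered pairs and singletons
  obtain ⟨sing, hsing, hs⟩ := smn (α := ℕ) (f := fun u _ => Part.some u)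
    (Computable.fst : Computable fun q : ℕ × ℕ => q.1)
  obtain ⟨prs, hprs, hp⟩ := smn (α := ℕ × ℕ)
    (f := fun p k => Part.some (cond (k == 0) p.1 p.2)) (by
    have : Computable fun q : (ℕ × ℕ) × ℕ => (cond (q.2 == 0) q.1.1 q.1.2 : ℕ) :=
      Computable.cond (Primrec.beq.comp Primrec.snd (Primrec.const 0)).to_comp
        (Computable.fst.comp Computable.fst) (Computable.snd.comp Computable.fst)
    exact this)
  -- the set of all singletons
  obtain ⟨tt, _, ht⟩ := smn (α := Unit) (f := fun _ w => Part.some (sing w))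
    (hsing.comp Computable.snd : Computable fun q : Unit × ℕ => sing q.2)
  set t0 := tt () with ht0
  -- the sets `Z`
  obtain ⟨Z, hZ, hZ'⟩ := smn (zfun_partrec hsing hprs)
  have hfam : Partrec₂ (fam Z) := fam_partrec hZ
  obtain ⟨B, hB, hB'⟩ := smn hfam
  obtain ⟨A, hA, hA'⟩ := smn (α := Code × ℕ × ℕ) (f := fun p k =>
      cond (k.unpair.1 == 0) (Part.some t0) (fam Z p k.unpair.2)) (by
    refine Partrec.cond ?_ ?_ ?_
    · exact (Primrec.beq.comp (Primrec.fst.comp (Primrec.unpair.comp Primrec.snd))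
        (Primrec.const 0)).to_comp
    · exact (Computable.const t0 : Computable fun _ : (Code × ℕ × ℕ) × ℕ => t0)
    · exact hfam.comp Computable.fst
        (Computable.snd.comp (Computable.unpair.comp Computable.snd)))
  obtain ⟨T, hT, hT'⟩ := exists_codes (g := fun (c : Code) (q : ℕ) =>
      Nat.pair (A (c, q.unpair.1, q.unpair.2)) (B (c, q.unpair.1, q.unpair.2))) (by
    have h1 : Computable fun p : Code × ℕ => (p.1, p.2.unpair.1, p.2.unpair.2) :=
      Computable.pair Computable.fst (Computable.pair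
        (Computable.fst.comp (Computable.unpair.comp Computable.snd))
        (Computable.snd.comp (Computable.unpair.comp Computable.snd)))
    exact (Primrec₂.natPair.to_comp).comp (hA.comp h1) (hB.comp h1))
  refine ⟨T, hT, ?_⟩
  rintro c E F hE hF ⟨f, hf, hEF⟩
  refine ⟨_, hT' c, fun x y => ?_⟩
  have hF1 := jump_equiv hF
  have hF2 := jump_equiv hF1
  have hF3 := jump_equiv hF2
  simp only [Nat.unpair_pair]
  -- elements of the various sets
  have ms : ∀ u n w, w ∈ phi (sing u) n ↔ w = u := by
    intro u n w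
    rw [hs]
    exact Part.mem_some_iff
  have mt : ∀ n w, w ∈ phi t0 n ↔ w = sing n := by
    intro n w
    rw [ht0, ht]
    exact Part.mem_some_iff
  -- equality of an unordered pair and a singleton
  have e1 : ∀ u v, (∃ w, jump F (prs (u, v)) (sing w)) ↔ F u v := by
    intro u v
    constructor
    · rintro ⟨w, h1, _⟩
      obtain ⟨m, w1, hw1, h2⟩ := h1 0 u (by rw [hp]; simp)
      obtain ⟨m', w2, hw2, h3⟩ := h1 1 v (by rw [hp]; simp)
      rw [ms] at hw1 hw2
      subst hw1 hw2
      exact hF.trans h2 (hF.symm h3)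
    · intro h
      refine ⟨u, fun n w hw => ⟨0, u, (ms _ _ _).2 rfl, ?_⟩, fun m w hw => ⟨0, u, ?_, ?_⟩⟩
      · rw [hp] at hw
        rcases hn : (n == 0) with _ | _
        · simp [hn] at hw
          rw [hw]
          exact hF.symm h
        · simp [hn] at hw
          rw [hw]
          exact hF.refl _
      · rw [hp]
        simp
      · rw [(ms _ _ _).1 hw]
        exact hF.refl _
  -- `Z` equals `t0`
  have e2 : ∀ a b n u, u ∈ phi a n → (jump (jump F) (Z (c, a, b, n)) t0 ↔
      ∀ m, ∀ v ∈ phi b m, ¬ E u v) := by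
    intro a b n u hu
    have mz : ∀ k w, w ∈ phi (Z (c, a, b, n)) k ↔ (k.unpair.1 = 0 ∧ w = sing k.unpair.2) ∨
        (k.unpair.1 ≠ 0 ∧ ∃ v ∈ phi b k.unpair.2,
          w = prs ((f (Nat.pair u v)).unpair.1, (f (Nat.pair u v)).unpair.2)) := by
      intro k w
      rw [hZ', zfun]
      by_cases hk : k.unpair.1 = 0
      · simp [hk]
      · have hk' : (k.unpair.1 == 0) = false := by simpa using hk
        simp only [hk', cond_false, hk, false_and, false_or, ne_eq, not_false_eq_true, true_and]
        refine Part.mem_bind_iff.trans ?_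
        constructor
        · rintro ⟨u', hu', h1⟩
          obtain rfl := Part.mem_unique hu' hu
          obtain ⟨v, hv, h2⟩ := Part.mem_bind_iff.1 h1
          obtain ⟨z, hz, h3⟩ := (Part.mem_map_iff _).1 h2
          obtain rfl := Part.mem_unique hz (hf _)
          exact ⟨v, hv, h3.symm⟩
        · rintro ⟨v, hv, rfl⟩
          refine ⟨u, hu, Part.mem_bind_iff.2 ⟨v, hv, (Part.mem_map_iff _).2 ⟨_, hf _, rfl⟩⟩⟩
    constructor
    · rintro ⟨h1, _⟩ m v hv
      obtain ⟨j, w, hw, h2⟩ := h1 (Nat.pair 1 m) _ ((mz _ _).2 (Or.inr ⟨by simp, v,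
        by simpa using hv, rfl⟩))
      rw [mt] at hw
      subst hw
      exact (hEF _ _).2 ((e1 _ _).1 ⟨_, h2⟩)
    · intro h
      refine ⟨fun k w hw => ?_, fun m w hw => ?_⟩
      · rcases (mz _ _).1 hw with ⟨_, rfl⟩ | ⟨_, v, hv, rfl⟩
        · exact ⟨_, _, (mt _ _).2 rfl, hF1.refl _⟩
        · obtain ⟨w, hw⟩ := (e1 _ _).2 ((hEF u v).1 (h _ v hv))
          exact ⟨_, _, (mt _ _).2 rfl, hw⟩
      · rw [mt] at hw
        subst hw
        exact ⟨Nat.pair 0 m, _, (mz _ _).2 (Or.inl ⟨by simp, by simp⟩), hF1.refl _⟩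
  -- the families
  have mfam : ∀ j w, w ∈ fam Z (c, x, y) j ↔
      (j.unpair.1 = 0 ∧ (∃ u, u ∈ phi x j.unpair.2) ∧ w = Z (c, x, y, j.unpair.2)) ∨
      (j.unpair.1 ≠ 0 ∧ (∃ v, v ∈ phi y j.unpair.2) ∧ w = Z (c, y, x, j.unpair.2)) := by
    intro j w
    by_cases hj : j.unpair.1 = 0
    · simp only [fam, hj, beq_self_eq_true, cond_true, true_and, ne_eq, not_true_eq_false,
        false_and, or_false, Part.mem_map_iff]
      constructor
      · rintro ⟨u, hu, rfl⟩
        exact ⟨⟨u, hu⟩, rfl⟩
      · rintro ⟨⟨u, hu⟩, rfl⟩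
        exact ⟨u, hu, rfl⟩
    · have hj' : (j.unpair.1 == 0) = false := by simpa using hj
      simp only [fam, hj', cond_false, hj, false_and, false_or, ne_eq, not_false_eq_true, true_and,
        Part.mem_map_iff]
      constructor
      · rintro ⟨u, hu, rfl⟩
        exact ⟨⟨u, hu⟩, rfl⟩
      · rintro ⟨⟨u, hu⟩, rfl⟩
        exact ⟨u, hu, rfl⟩
  have mB : ∀ j w, w ∈ phi (B (c, x, y)) j ↔ w ∈ fam Z (c, x, y) j := by
    intro j w
    rw [hB']
  have mA : ∀ k w, w ∈ phi (A (c, x, y)) k ↔ (k.unpair.1 = 0 ∧ w = t0) ∨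
      (k.unpair.1 ≠ 0 ∧ w ∈ fam Z (c, x, y) k.unpair.2) := by
    intro k w
    rw [hA']
    by_cases hk : k.unpair.1 = 0
    · simp [hk]
    · have hk' : (k.unpair.1 == 0) = false := by simpa using hk
      simp [hk', hk]
  have e3 : jump (jump (jump F)) (A (c, x, y)) (B (c, x, y)) ↔
      ∃ j, ∃ w ∈ fam Z (c, x, y) j, jump (jump F) w t0 := by
    constructor
    · rintro ⟨h1, _⟩
      obtain ⟨j, w, hw, h2⟩ := h1 (Nat.pair 0 0) t0 ((mA _ _).2 (Or.inl ⟨by simp, rfl⟩))
      exact ⟨j, w, (mB _ _).1 hw, hF2.symm h2⟩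
    · rintro ⟨j, w, hw, h⟩
      refine ⟨fun k u hu => ?_, fun m u hu => ?_⟩
      · rcases (mA _ _).1 hu with ⟨_, rfl⟩ | ⟨_, h1⟩
        · exact ⟨j, w, (mB _ _).2 hw, hF2.symm h⟩
        · exact ⟨_, u, (mB _ _).2 h1, hF2.refl _⟩
      · exact ⟨Nat.pair 1 m, u, (mA _ _).2 (Or.inr ⟨by simp, by simpa using (mB _ _).1 hu⟩),
          hF2.refl _⟩
  rw [e3]
  constructor
  · intro h
    rw [jump, not_and_or] at h
    rcases h with h | h
    · push Not at h
      obtain ⟨n, u, hu, h⟩ := h
      refine ⟨Nat.pair 0 n, Z (c, x, y, n), (mfam _ _).2 (Or.inl ⟨by simp, ⟨u, by simpa using hu⟩,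
        by simp⟩), (e2 x y n u hu).2 h⟩
    · push Not at h
      obtain ⟨n, u, hu, h⟩ := h
      refine ⟨Nat.pair 1 n, Z (c, y, x, n), (mfam _ _).2 (Or.inr ⟨by simp, ⟨u, by simpa using hu⟩,
        by simp⟩), (e2 y x n u hu).2 fun m v hv hh => h m v hv (hE.symm hh)⟩
  · rintro ⟨j, w, hw, h⟩ ⟨h1, h2⟩
    rcases (mfam _ _).1 hw with ⟨_, ⟨u, hu⟩, rfl⟩ | ⟨_, ⟨u, hu⟩, rfl⟩
    · obtain ⟨m, v, hv, h3⟩ := h1 _ u hu
      exact (e2 x y _ u hu).1 h m v hv h3
    · obtain ⟨m, v, hv, h3⟩ := h2 _ u hu
      exact (e2 y x _ u hu).1 h m v hv (hE.symm h3)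

theorem Neg.jmp {E F : ℕ → ℕ → Prop} (hE : Equivalence E) (hF : Equivalence F) (h : Neg E F) :
    Neg (jump E) (jump^[3] F) := by
  obtain ⟨c, hc⟩ := h.exists_code
  obtain ⟨T, _, hT⟩ := stepNeg
  exact (hT c E F hE hF hc).neg

theorem Neg.om {E F : ℕ → ℕ → Prop} (hE : Equivalence E) (hF : Equivalence F) (h : Neg E F) :
    Neg (omegaJump E) (omegaJump F) := by
  obtain ⟨c, hc⟩ := h.exists_code
  obtain ⟨T, hT, hT'⟩ := stepNeg
  have hcn : ∀ n, CNeg (T^[n] c) (jump^[n] E) (jump^[3 * n] F) := by
    intro n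
    induction n with
    | zero => exact hc
    | succ n ih =>
      have h3 : jump^[3 * (n + 1)] F = jump (jump (jump (jump^[3 * n] F))) := by
        rw [show 3 * (n + 1) = 3 * n + 1 + 1 + 1 by ring, Function.iterate_succ_apply',
          Function.iterate_succ_apply', Function.iterate_succ_apply']
      rw [Function.iterate_succ_apply', Function.iterate_succ_apply', h3]
      exact hT' _ _ _ (iter_equiv hE n) (iter_equiv hF _) ih
  choose f hf hf' using hcn
  have hcomp : Computable fun n => T^[n] c := by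
    have h1 : Computable fun n : ℕ => (Nat.rec c (fun _ d => T d) n : Code) :=
      Computable.nat_rec Computable.id (Computable.const c)
        (hT.comp (Computable.snd.comp Computable.snd)).to₂
    refine h1.of_eq fun n => ?_
    induction n with
    | zero => rfl
    | succ n ih =>
      rw [Function.iterate_succ_apply', ← ih]
  -- the value of the reduction on `⟨⟨m, x⟩, ⟨n, y⟩⟩`
  have c1 : Computable fun q : ℕ => q.unpair.1.unpair.1 :=
    Computable.fst.comp (Computable.unpair.comp (Computable.fst.comp Computable.unpair))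
  have c2 : Computable fun q : ℕ => q.unpair.1.unpair.2 :=
    Computable.snd.comp (Computable.unpair.comp (Computable.fst.comp Computable.unpair))
  have c3 : Computable fun q : ℕ => q.unpair.2.unpair.1 :=
    Computable.fst.comp (Computable.unpair.comp (Computable.snd.comp Computable.unpair))
  have c4 : Computable fun q : ℕ => q.unpair.2.unpair.2 :=
    Computable.snd.comp (Computable.unpair.comp (Computable.snd.comp Computable.unpair))
  have hG : Computable fun q : ℕ =>
      f q.unpair.1.unpair.1 (Nat.pair q.unpair.1.unpair.2 q.unpair.2.unpair.2) := by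
    have h2 : Partrec fun q : ℕ => (T^[q.unpair.1.unpair.1] c).eval
        (Nat.pair q.unpair.1.unpair.2 q.unpair.2.unpair.2) :=
      Code.eval_part.comp (hcomp.comp c1) ((Primrec₂.natPair.to_comp).comp c2 c4)
    refine h2.of_eq fun x => ?_
    exact Part.eq_some_iff.2 (hf _ _)
  refine ⟨fun q => cond (q.unpair.1.unpair.1 == q.unpair.2.unpair.1)
    (Nat.pair (Nat.pair (3 * q.unpair.1.unpair.1) (f q.unpair.1.unpair.1
        (Nat.pair q.unpair.1.unpair.2 q.unpair.2.unpair.2)).unpair.1)
      (Nat.pair (3 * q.unpair.1.unpair.1) (f q.unpair.1.unpair.1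
        (Nat.pair q.unpair.1.unpair.2 q.unpair.2.unpair.2)).unpair.2))
    (Nat.pair 0 0), ?_, fun x y => ?_⟩
  · refine Computable.cond ?_ ?_ (Computable.const _)
    · exact (Primrec.beq.to_comp).comp c1 c3
    · have h3 : Computable fun q : ℕ => 3 * q.unpair.1.unpair.1 :=
        (Primrec.nat_mul.to_comp).comp (Computable.const 3) c1
      exact (Primrec₂.natPair.to_comp).comp
        ((Primrec₂.natPair.to_comp).comp h3 (Computable.fst.comp (Computable.unpair.comp hG)))
        ((Primrec₂.natPair.to_comp).comp h3 (Computable.snd.comp (Computable.unpair.comp hG)))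
  · simp only [Nat.unpair_pair]
    by_cases hxy : x.unpair.1 = y.unpair.1
    · have hxy' : (x.unpair.1 == y.unpair.1) = true := by simpa using hxy
      rw [hxy']
      simp only [cond_true, Nat.unpair_pair, omegaJump, dsum, true_and, hxy]
      rw [← hxy]
      exact hf' _ _ _
    · have hxy' : (x.unpair.1 == y.unpair.1) = false := by simpa using hxy
      simp only [hxy', cond_false, Nat.unpair_pair, omegaJump, dsum, hxy, false_and,
        not_false_eq_true, true_and, true_iff]
      exact (iter_equiv hF _).refl _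

theorem Neg.omIter {E F : ℕ → ℕ → Prop} (hE : Equivalence E) (hF : Equivalence F) (h : Neg E F)
    (n : ℕ) : Neg (omegaJump^[n] E) (omegaJump^[n] F) := by
  have he : ∀ {E : ℕ → ℕ → Prop} (_ : Equivalence E) n, Equivalence (omegaJump^[n] E) := by
    intro E hE n
    induction n with
    | zero => exact hE
    | succ n ih =>
      rw [Function.iterate_succ_apply']
      exact omegaJump_equiv ih
  induction n with
  | zero => exact h
  | succ n ih =>
    rw [Function.iterate_succ_apply', Function.iterate_succ_apply']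
    exact ih.om (he hE n) (he hF n)

theorem neg_eq : Neg (fun x y : ℕ => x = y) (fun x y : ℕ => x = y) := by
  refine ⟨fun q => cond (q.unpair.1 == q.unpair.2) (Nat.pair 0 1) (Nat.pair 0 0), ?_, ?_⟩
  · exact Computable.cond ((Primrec.beq.to_comp).comp (Computable.fst.comp Computable.unpair)
      (Computable.snd.comp Computable.unpair)) (Computable.const _) (Computable.const _)
  · intro x y
    by_cases h : x = y
    · simp [h]
    · have h' : (x == y) = false := by simpa using h
      simp [h, h']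

/-- The separation: if the equality relation reduces to `E`, then the jump of the `(v+1)`-st
`ω`-iterate of `E` is not reducible to the `v`-th `ω`-iterate of equality. -/
theorem separation {v : ℕ} {G : ℕ → ℕ → Prop}
    (hG : Red (omegaJump^[v + 1] (fun x y : ℕ => x = y)) G)
    (h : Red G (omegaJump^[v] (fun x y : ℕ => x = y))) : False := by
  set I : ℕ → ℕ → Prop := fun x y => x = y with hI
  have hIe : Equivalence I := ⟨fun _ => rfl, fun h => h.symm, fun h h' => h.trans h'⟩
  have he : ∀ n, Equivalence (omegaJump^[n] I) := by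
    intro n
    induction n with
    | zero => exact hIe
    | succ n ih =>
      rw [Function.iterate_succ_apply']
      exact omegaJump_equiv ih
  have h1 : Neg (jump (omegaJump^[v] I)) (jump^[3] (omegaJump^[v] I)) :=
    (neg_eq.omIter hIe hIe v).jmp (he v) (he v)
  have h2 : Red (jump^[3] (omegaJump^[v] I)) (omegaJump^[v + 1] I) := by
    rw [Function.iterate_succ_apply' omegaJump]
    exact red_omegaJump _ 3
  have h3 : Red (omegaJump^[v] I) (jump (omegaJump^[v] I)) := by
    obtain ⟨sing, hsing, hs⟩ := smn (α := ℕ) (f := fun u _ => Part.some u)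
      (Computable.fst : Computable fun q : ℕ × ℕ => q.1)
    refine ⟨sing, hsing, fun x y => ?_⟩
    simp only [jump, hs, Part.mem_some_iff]
    constructor
    · intro h
      exact ⟨fun _ u hu => ⟨0, y, rfl, by rw [hu]; exact h⟩, fun _ u hu => ⟨0, x, rfl, by
        rw [hu]; exact h⟩⟩
    · rintro ⟨h, _⟩
      obtain ⟨_, v', h1, h2⟩ := h 0 x rfl
      rw [h1] at h2
      exact h2
  exact not_neg_self _ (h1.trans_red (h2.trans (hG.trans (h.trans h3))))

end Pool.Agent.K9h72.FSJ
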